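import Mathlib

/-!
# Project WF: definitions
-/

namespace N894.WF

/-- Weakly sofic groups (as on the page of `MP_f2b0dc_al`). -/
def WeaklySofic (G : Type*) [Group G] : Prop :=
  ∀ (F : Finset G) (ε : ℝ), 0 < ε →
    ∃ (H : Type) (_ : Group H) (_ : Finite H) (d : H → H → ℝ) (φ : G → H),
      (∀ a b, d a b = 0 ↔ a = b) ∧ (∀ a b, d a b = d b a) ∧
      (∀ a b c, d a c ≤ d a b + d b c) ∧
      (∀ x a b, d (x * a) (x * b) = d a b) ∧ (∀ x a b, d (a * x) (b * x) = d a b) ∧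
      (∀ g ∈ F, ∀ h ∈ F, g * h ∈ F → d (φ (g * h)) (φ g * φ h) ≤ ε) ∧
      ∀ g ∈ F, g ≠ 1 → 1 ≤ d (φ g) 1

/-- `T` consists of conjugates (in `Q`) of the errors of `φ` on `F`. -/
def IsErrSet {G Q : Type*} [Group G] [Group Q] (φ : G → Q) (F : Finset G) (T : Finset Q) : Prop :=
  ∀ t ∈ T, ∃ x : Q, ∃ g ∈ F, ∃ h ∈ F, t = x * (φ g * φ h * (φ (g * h))⁻¹) * x⁻¹

/-- Rank-sofic groups: approximable by finite groups such that no non-trivial element of `F` is sent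
into a subgroup generated by `K` conjugates of errors. -/
def RankSofic (G : Type*) [Group G] : Prop :=
  ∀ (F : Finset G) (K : ℕ),
    ∃ (Q : Type) (_ : Group Q) (_ : Finite Q) (φ : G → Q),
      ∀ T : Finset Q, T.card ≤ K → IsErrSet φ F T →
        ∀ g ∈ F, g ≠ 1 → φ g ∉ Subgroup.closure (T : Set Q)

/-- The theorem of Nikolov and Segal (Invent. Math. 190 (2012), Theorem 1.2, with `K = G`): in a
finite group generated by at most `k` elements every element of the commutator subgroup is a product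
of at most `f(k)` conjugates of the generators and their inverses. -/
def NikolovSegal : Prop :=
  ∀ k : ℕ, ∃ f : ℕ, ∀ (C : Type) (_ : Group C) (_ : Finite C) (T : Finset C), T.card ≤ k →
    Subgroup.closure (T : Set C) = ⊤ →
    ∀ x ∈ commutator C, ∃ l : List C, l.length ≤ f ∧
      (∀ y ∈ l, ∃ t ∈ T, ∃ z : C, y = z * t * z⁻¹ ∨ y = z * t⁻¹ * z⁻¹) ∧ l.prod = x

/-- Leaf A. -/
def LeafA : Prop := ∀ (G : Type) [Group G], RankSofic G → WeaklySofic G

/-- Leaf LIN1: an integral linear system solvable modulo every `m > 0` is solvable. -/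
def LeafLIN1 : Prop := ∀ (n r : ℕ) (A : Fin n → Fin r → ℤ) (v : Fin r → ℤ),
  (∀ m : ℕ, 0 < m → ∃ e : Fin n → ℤ, ∀ x, (m : ℤ) ∣ (∑ i, e i * A i x) - v x) →
    ∃ e : Fin n → ℤ, ∀ x, ∑ i, e i * A i x = v x

/-- Leaf LIN: uniform local-to-global principle with bounded solutions. -/
def LeafLIN : Prop := ∀ (K R B : ℕ), ∃ (m L : ℕ), 0 < m ∧
  ∀ (ι X : Type) [Fintype ι], Fintype.card ι ≤ K →
    ∀ (A : ι → X → ℤ) (v : X → ℤ) (Y : Finset X), Y.card ≤ R →
      (∀ x, x ∉ Y → v x = 0 ∧ ∀ i, A i x = 0) →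
      (∀ x, |v x| ≤ B ∧ ∀ i, |A i x| ≤ B) →
      (∃ e : ι → ℤ, ∀ x, (m : ℤ) ∣ (∑ i, e i * A i x) - v x) →
      ∃ lam : ι → ℤ, (∀ i, |lam i| ≤ L) ∧ ∀ x, ∑ i, lam i * A i x = v x

open Classical in
/-- Indicator of `C y = C x` and `s' = s`. -/
noncomputable def ind {H S : Type} [Group H] (C : Subgroup H) (x : H) (s : S) (y : H) (s' : S) : ℤ :=
  if s' = s ∧ y * x⁻¹ ∈ C then 1 else 0

/-- The coefficient at `(C x, s)` of `k D(a b p⁻¹)` (Fox derivative). -/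
noncomputable def rel {H S : Type} [Group H] (C : Subgroup H) (φ : S → H) (x : H) (s : S)
    (k : H) (a b p : S) : ℤ :=
  ind C x s k a + ind C x s (k * φ a) b - ind C x s (k * φ a * φ b * (φ p)⁻¹) p

/-- Leaf C1: transfer. -/
def LeafC1 : Prop := ∀ (H S : Type) [Group H] (φ : S → H) (C : Subgroup H)
  (M : Type) [CommGroup M] (α : C →* M) (ι : Type) [Fintype ι] (k : ι → H) (a b p : ι → S) (g : S)
  (lam : ι → ℤ)
  (hc : ∀ i, k i * (φ (a i) * φ (b i) * (φ (p i))⁻¹) * (k i)⁻¹ ∈ C) (hg : φ g ∈ C),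
  (∀ (x : H) (s : S), ∑ i, lam i * rel C φ x s (k i) (a i) (b i) (p i) = ind C x s 1 g) →
    α ⟨φ g, hg⟩ = ∏ i, α ⟨_, hc i⟩ ^ lam i

/-- Leaf C2: the Magnus extension modulo `m`. -/
def LeafC2 : Prop := ∀ (H S : Type) [Group H] [Finite H] [Fintype S] (φ : S → H) (m : ℕ), 0 < m →
  ∃ (P : Type) (_ : Group P) (_ : Finite P) (π : P →* H) (ψ : S → P), (∀ s, π (ψ s) = φ s) ∧
    ∀ (ι : Type) [Fintype ι] (x : ι → P) (a b p : ι → S) (g : S),
      ψ g ∈ Subgroup.closure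
        (Set.range fun i => x i * (ψ (a i) * ψ (b i) * (ψ (p i))⁻¹) * (x i)⁻¹) →
      ∃ e : ι → ℤ, ∀ (y : H) (s : S), (m : ℤ) ∣
        (∑ i, e i * rel (Subgroup.closure (Set.range fun i =>
          π (x i) * (φ (a i) * φ (b i) * (φ (p i))⁻¹) * (π (x i))⁻¹)) φ y s (π (x i))
            (a i) (b i) (p i)) -
        ind (Subgroup.closure (Set.range fun i =>
          π (x i) * (φ (a i) * φ (b i) * (φ (p i))⁻¹) * (π (x i))⁻¹)) y s 1 g

/-- Leaf C3: assembly. -/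
def LeafC3 : Prop := LeafLIN → LeafC1 → LeafC2 → NikolovSegal →
  ∀ (G : Type) [Group G], WeaklySofic G → RankSofic G

/-- Value of a word. -/
def ev {V : Type} {Γ : V → Type} {P : Type} [Group P] (φ : (v : V) → Γ v → P)
    (l : List (Σ v, Γ v)) : P := (l.map fun x => φ x.1 x.2).prod

/-- Sets of conjugates of errors for a family of maps. -/
def IsErrV {V : Type} {Γ : V → Type} [∀ v, Group (Γ v)] {P : Type} [Group P]
    (φ : (v : V) → Γ v → P) (F : Finset (Σ v, Γ v)) (T : Finset P) : Prop :=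
  ∀ t ∈ T, ∃ x : P, ∃ v : V, ∃ a b : Γ v, (⟨v, a⟩ : Σ v, Γ v) ∈ F ∧ (⟨v, b⟩ : Σ v, Γ v) ∈ F ∧
    t = x * (φ v a * φ v b * (φ v (a * b))⁻¹) * x⁻¹

/-- Reduced words of length at most `N` with letters in `F` avoid all subgroups generated by `K`
conjugates of errors. -/
def Good {V : Type} {Γ : V → Type} [∀ v, Group (Γ v)] {P : Type} [Group P]
    (φ : (v : V) → Γ v → P) (F : Finset (Σ v, Γ v)) (K N : ℕ) : Prop :=
  ∀ l : List (Σ v, Γ v), l ≠ [] → l.length ≤ N → (∀ x ∈ l, x ∈ F ∧ x.2 ≠ 1) →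
    l.IsChain (fun x y => x.1 ≠ y.1) →
    ∀ T : Finset P, T.card ≤ K → IsErrV φ F T → ev φ l ∉ Subgroup.closure (T : Set P)

/-- Leaf B0: words of length one. -/
def LeafB0 : Prop := ∀ (V : Type) (Γ : V → Type) [∀ v, Group (Γ v)], (∀ v, RankSofic (Γ v)) →
  ∀ (F : Finset (Σ v, Γ v)) (K : ℕ),
    ∃ (P : Type) (_ : Group P) (_ : Finite P) (φ : (v : V) → Γ v → P), Good φ F K 1

/-- Leaf B1: the step. -/
def LeafB1 : Prop := ∀ (V : Type) (Γ : V → Type) [∀ v, Group (Γ v)]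
  (F : Finset (Σ v, Γ v)) (K N : ℕ), 1 ≤ N →
    (∃ (P : Type) (_ : Group P) (_ : Finite P) (φ : (v : V) → Γ v → P), Good φ F K N) →
    ∃ (P : Type) (_ : Group P) (_ : Finite P) (φ : (v : V) → Γ v → P), Good φ F K (N + 1)

/-- Leaf B2: from words to the free product. -/
def LeafB2 : Prop := ∀ (V : Type) (Γ : V → Type) [∀ v, Group (Γ v)],
  (∀ (F : Finset (Σ v, Γ v)) (K N : ℕ),
    ∃ (P : Type) (_ : Group P) (_ : Finite P) (φ : (v : V) → Γ v → P), Good φ F K N) →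
    RankSofic (Monoid.CoprodI Γ)

end N894.WF
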