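import Pool.Agent.N894.WF.Defs

/-!
# Project WF: definitions for graph products
-/

namespace N894.WF

/-- The graph product of the groups `Γ v` over the graph `X`. -/
def GraphProduct {V : Type} (X : SimpleGraph V) (Γ : V → Type) [∀ v, Group (Γ v)] : Type :=
  Monoid.CoprodI Γ ⧸ Subgroup.normalClosure
    {z : Monoid.CoprodI Γ | ∃ u v : V, X.Adj u v ∧ ∃ (a : Γ u) (b : Γ v),
      z = Monoid.CoprodI.of a * Monoid.CoprodI.of b * (Monoid.CoprodI.of a)⁻¹ *
        (Monoid.CoprodI.of b)⁻¹}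

instance {V : Type} (X : SimpleGraph V) (Γ : V → Type) [∀ v, Group (Γ v)] :
    Group (GraphProduct X Γ) := by
  unfold GraphProduct
  infer_instance

/-- The subgroup generated by the images of all letters with vertex in `S`. -/
def Lbar {V : Type} {Γ : V → Type} {P : Type} [Group P] (φ : (v : V) → Γ v → P) (S : Set V) :
    Subgroup P := Subgroup.closure {z | ∃ s ∈ S, ∃ a : Γ s, z = φ s a}

/-- Reduced words for the graph product: between two letters of the same vertex there is a letter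
whose vertex is not adjacent to it. -/
def Red {V : Type} {Γ : V → Type} (X : SimpleGraph V) (l : List (Σ v, Γ v)) : Prop :=
  ∀ (p u q : List (Σ v, Γ v)) (x y : Σ v, Γ v), l = p ++ x :: (u ++ y :: q) → x.1 = y.1 →
    ∃ z ∈ u, ¬ X.Adj x.1 z.1

/-- The maps commute exactly along edges, and reduced words of length at most `N` with letters in `F`
and with a letter outside `S` avoid all products `C * Lbar S`, `C` generated by `K` conjugates of
errors. -/
def GoodG {V : Type} {Γ : V → Type} [∀ v, Group (Γ v)] (X : SimpleGraph V) {P : Type} [Group P]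
    (φ : (v : V) → Γ v → P) (F : Finset (Σ v, Γ v)) (K N : ℕ) : Prop :=
  (∀ u v, X.Adj u v → ∀ (a : Γ u) (b : Γ v), Commute (φ u a) (φ v b)) ∧
  ∀ l : List (Σ v, Γ v), l.length ≤ N → (∀ x ∈ l, x ∈ F ∧ x.2 ≠ 1) → Red X l →
    ∀ S : Set V, (∃ x ∈ l, x.1 ∉ S) →
      ∀ T : Finset P, T.card ≤ K → IsErrV φ F T →
        ∀ c ∈ Subgroup.closure (T : Set P), ∀ s ∈ Lbar φ S, ev φ l ≠ c * s

/-- Leaf G0: words of length one. -/
def LeafG0 : Prop := ∀ (V : Type) (X : SimpleGraph V) (Γ : V → Type) [∀ v, Group (Γ v)],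
  (∀ v, RankSofic (Γ v)) → ∀ (F : Finset (Σ v, Γ v)) (K : ℕ),
    ∃ (P : Type) (_ : Group P) (_ : Finite P) (φ : (v : V) → Γ v → P), GoodG X φ F K 1

/-- Leaf G1: the step. -/
def LeafG1 : Prop := ∀ (V : Type) (X : SimpleGraph V) (Γ : V → Type) [∀ v, Group (Γ v)]
  (F : Finset (Σ v, Γ v)) (K N : ℕ), 1 ≤ N →
    (∃ (P : Type) (_ : Group P) (_ : Finite P) (φ : (v : V) → Γ v → P), GoodG X φ F K N) →
    ∃ (P : Type) (_ : Group P) (_ : Finite P) (φ : (v : V) → Γ v → P), GoodG X φ F K (N + 1)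

/-- Leaf G2: from words to the graph product. -/
def LeafG2 : Prop := ∀ (V : Type) (X : SimpleGraph V) (Γ : V → Type) [∀ v, Group (Γ v)],
  (∀ (F : Finset (Σ v, Γ v)) (K N : ℕ),
    ∃ (P : Type) (_ : Group P) (_ : Finite P) (φ : (v : V) → Γ v → P), GoodG X φ F K N) →
    RankSofic (GraphProduct X Γ)

end N894.WF
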