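import Pool.Agent.N894.WF.Defs

/-!
# Project WF: commutator-contractive approximations
-/

namespace N894.WF

/-- Weakly sofic approximations by finite groups in which subgroups generated by at most `K` elements
of length at most `ε` have commutator subgroups boundedly generated by conjugates of the generators
and their inverses. -/
def LocNS (G : Type) [Group G] : Prop :=
  ∃ f : ℕ → ℕ, ∀ (F : Finset G) (K : ℕ) (ε : ℝ), 0 < ε →
    ∃ (H : Type) (_ : Group H) (_ : Finite H) (d : H → H → ℝ) (φ : G → H),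
      (∀ a b, d a b = 0 ↔ a = b) ∧ (∀ a b, d a b = d b a) ∧
      (∀ a b c, d a c ≤ d a b + d b c) ∧
      (∀ x a b, d (x * a) (x * b) = d a b) ∧ (∀ x a b, d (a * x) (b * x) = d a b) ∧
      (∀ g ∈ F, ∀ h ∈ F, g * h ∈ F → d (φ (g * h)) (φ g * φ h) ≤ ε) ∧
      (∀ g ∈ F, g ≠ 1 → 1 ≤ d (φ g) 1) ∧
      ∀ T : Finset H, T.card ≤ K → (∀ t ∈ T, d t 1 ≤ ε) →
        ∀ x ∈ ⁅Subgroup.closure (T : Set H), Subgroup.closure (T : Set H)⁆,
          ∃ l : List H, l.length ≤ f K ∧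
            (∀ y ∈ l, ∃ t ∈ T, ∃ z : H, y = z * t * z⁻¹ ∨ y = z * t⁻¹ * z⁻¹) ∧ l.prod = x

/-- Groups approximable by finite groups with commutator-contractive invariant length functions
(Thom's class; `M = 4` there). -/
def CCApprox (G : Type) [Group G] : Prop :=
  ∃ M : ℝ, ∀ (F : Finset G) (ε : ℝ), 0 < ε →
    ∃ (H : Type) (_ : Group H) (_ : Finite H) (d : H → H → ℝ) (φ : G → H),
      (∀ a b, d a b = 0 ↔ a = b) ∧ (∀ a b, d a b = d b a) ∧
      (∀ a b c, d a c ≤ d a b + d b c) ∧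
      (∀ x a b, d (x * a) (x * b) = d a b) ∧ (∀ x a b, d (a * x) (b * x) = d a b) ∧
      (∀ g ∈ F, ∀ h ∈ F, g * h ∈ F → d (φ (g * h)) (φ g * φ h) ≤ ε) ∧
      (∀ g ∈ F, g ≠ 1 → 1 ≤ d (φ g) 1) ∧
      ∀ a b, d (a * b * a⁻¹ * b⁻¹) 1 ≤ M * d a 1 * d b 1

/-- Leaf N1: the elementary Nikolov-Segal theorem for nilpotent groups. -/
def LeafN1 : Prop := ∀ (C : Type) [Group C] [Group.IsNilpotent C] (T : Finset C),
  Subgroup.closure (T : Set C) = ⊤ →
    ∀ x ∈ commutator C, ∃ l : List C, l.length ≤ 2 * T.card ∧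
      (∀ y ∈ l, ∃ t ∈ T, ∃ z : C, y = z * t * z⁻¹ ∨ y = z * t⁻¹ * z⁻¹) ∧ l.prod = x

/-- Leaf N2: elements of small length generate a nilpotent subgroup. -/
def LeafN2 : Prop := ∀ (H : Type) [Group H] [Finite H] (ell : H → ℝ) (M ε : ℝ), M * ε < 1 →
  0 ≤ ε → 0 ≤ M → (∀ x, ell x = 0 ↔ x = 1) → (∀ x, 0 ≤ ell x) → (∀ x, ell x⁻¹ = ell x) →
  (∀ x y, ell (x * y) ≤ ell x + ell y) → (∀ x y, ell (x * y * x⁻¹) = ell y) →
  (∀ a b, ell (a * b * a⁻¹ * b⁻¹) ≤ M * ell a * ell b) →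
  ∀ T : Finset H, (∀ t ∈ T, ell t ≤ ε) → Group.IsNilpotent (Subgroup.closure (T : Set H))

/-- Leaf N3: assembly. -/
def LeafN3 : Prop := LeafN1 → LeafN2 → ∀ (G : Type) [Group G], CCApprox G → LocNS G

/-- Leaf C3p: the assembly of Leaf C3 with the local hypothesis. -/
def LeafC3p : Prop := LeafLIN → LeafC1 → LeafC2 → ∀ (G : Type) [Group G], LocNS G → RankSofic G

end N894.WF
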