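import Pool.Agent.N894.WF.Defs

/-!
# Project WF: sofic and linear sofic groups
-/

namespace N894.WF

/-- Sofic groups: approximable by finite symmetric groups with the normalised Hamming distance; the
separation constant `δ` may depend on the group (for sofic groups any `δ < 1` can be reached). -/
def Sofic (G : Type) [Group G] : Prop :=
  ∃ δ : ℝ, 0 < δ ∧ ∀ (F : Finset G) (ε : ℝ), 0 < ε →
    ∃ (n : ℕ) (φ : G → Equiv.Perm (Fin n)), 0 < n ∧
      (∀ g ∈ F, ∀ h ∈ F, g * h ∈ F →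
        ((Finset.univ.filter fun x => φ (g * h) x ≠ φ g (φ h x)).card : ℝ) ≤ ε * n) ∧
      ∀ g ∈ F, g ≠ 1 → δ * n ≤ ((Finset.univ.filter fun x => φ g x ≠ x).card : ℝ)

/-- Linear sofic groups over finite fields: approximable by the groups `GL n k`, `k` a finite field
(which may depend on the approximation), with the normalised rank distance. -/
def LinSofic (G : Type) [Group G] : Prop :=
  ∃ δ : ℝ, 0 < δ ∧ ∀ (F : Finset G) (ε : ℝ), 0 < ε →
    ∃ (k : Type) (_ : Field k) (_ : Finite k) (n : ℕ) (φ : G → (Matrix (Fin n) (Fin n) k)ˣ), 0 < n ∧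
      (∀ g ∈ F, ∀ h ∈ F, g * h ∈ F →
        ((((φ (g * h) : Matrix (Fin n) (Fin n) k) - φ g * φ h).rank : ℕ) : ℝ) ≤ ε * n) ∧
      ∀ g ∈ F, g ≠ 1 → δ * n ≤ ((((φ g : Matrix (Fin n) (Fin n) k) - 1).rank : ℕ) : ℝ)

/-- Leaf S1. -/
def LeafS1 : Prop := ∀ (G : Type) [Group G], Sofic G → RankSofic G

/-- Leaf S2. -/
def LeafS2 : Prop := ∀ (G : Type) [Group G], LinSofic G → RankSofic G

end N894.WF
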