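import Pool.Agent.N370.WF_A
import Pool.Agent.N288.WF_LIN1
import Pool.Agent.N285.WF_LIN
import Pool.Agent.N707.WF_C1
import Pool.Agent.N806.WF_C2
import Pool.Agent.N999.WF_C3
import Pool.Agent.N170.WF_B0
import Pool.Agent.N371.WF_B1
import Pool.Agent.N398.WF_B2

/-!
# Project WF: assembly for free products
-/

namespace N894.WF

open Pool.Agent

/-- Rank-sofic groups are weakly sofic. -/
theorem weaklySofic_of_rankSofic (G : Type) [Group G] (h : RankSofic G) : WeaklySofic G :=
  N370.WF.t_A G h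

/-- Modulo the Nikolov–Segal theorem weakly sofic groups are rank-sofic. -/
theorem rankSofic_of_weaklySofic (NS : NikolovSegal) (G : Type) [Group G] (h : WeaklySofic G) :
    RankSofic G :=
  N999.WF.t_C3 (N285.WF.t_LIN N288.WF.t_LIN1) N707.WF.t_C1 N806.WF.t_C2 NS G h

/-- Free products of rank-sofic groups are rank-sofic. -/
theorem rankSofic_coprod (V : Type) (Γ : V → Type) [∀ v, Group (Γ v)] (h : ∀ v, RankSofic (Γ v)) :
    RankSofic (Monoid.CoprodI Γ) := by
  classical
  refine N398.WF.t_B2 V Γ fun F K N => ?_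
  have h1 : ∀ N, ∃ (P : Type) (_ : Group P) (_ : Finite P) (φ : (v : V) → Γ v → P),
      Good φ F K (N + 1) := by
    intro N
    induction N with
    | zero => simpa using N170.WF.t_B0 V Γ h F K
    | succ n ih => exact N371.WF.t_B1 V Γ F K (n + 1) (by omega) ih
  obtain ⟨P, i1, i2, φ, hφ⟩ := h1 N
  exact ⟨P, i1, i2, φ, fun l h0 hl => hφ l h0 (by omega)⟩

theorem weaklySofic_coprod (NS : NikolovSegal) (V : Type) (Γ : V → Type) [∀ v, Group (Γ v)]
    (h : ∀ v, WeaklySofic (Γ v)) : WeaklySofic (Monoid.CoprodI Γ) :=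
  weaklySofic_of_rankSofic _
    (rankSofic_coprod V Γ fun v => rankSofic_of_weaklySofic NS (Γ v) (h v))

end N894.WF
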