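import Pool.Agent.N894.WF.MainB
import Pool.Agent.N806.WF_G0
import Pool.Agent.N881.WF_G1
import Pool.Agent.N521.WF_G2
import Pool.Agent.N353.WF_S1
import Pool.Agent.N482.WF_S2

/-!
# Project WF: assembly for graph products
-/

namespace N894.WF

open Pool.Agent

/-- Graph products of rank-sofic groups are rank-sofic. -/
theorem rankSofic_graphProduct (V : Type) (X : SimpleGraph V) (Γ : V → Type) [∀ v, Group (Γ v)]
    (h : ∀ v, RankSofic (Γ v)) : RankSofic (GraphProduct X Γ) := by
  classical
  refine N521.WF.t_G2 V X Γ fun F K N => ?_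
  have h1 : ∀ N, ∃ (P : Type) (_ : Group P) (_ : Finite P) (φ : (v : V) → Γ v → P),
      GoodG X φ F K (N + 1) := by
    intro N
    induction N with
    | zero => simpa using N806.WF.t_G0 V X Γ h F K
    | succ n ih => exact N881.WF.t_G1 V X Γ F K (n + 1) (by omega) ih
  obtain ⟨P, i1, i2, φ, hφ⟩ := h1 N
  exact ⟨P, i1, i2, φ, hφ.1, fun l hl => hφ.2 l (by omega)⟩

theorem weaklySofic_graphProduct (NS : NikolovSegal) (V : Type) (X : SimpleGraph V) (Γ : V → Type)
    [∀ v, Group (Γ v)] (h : ∀ v, WeaklySofic (Γ v)) : WeaklySofic (GraphProduct X Γ) :=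
  weaklySofic_of_rankSofic _
    (rankSofic_graphProduct V X Γ fun v => rankSofic_of_weaklySofic NS (Γ v) (h v))

theorem rankSofic_of_sofic (G : Type) [Group G] (h : Sofic G) : RankSofic G := N353.WF.t_S1 G h

theorem rankSofic_of_linSofic (G : Type) [Group G] (h : LinSofic G) : RankSofic G :=
  N482.WF.t_S2 G h

end N894.WF
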