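import Pool.Agent.N894.WF.MainG
import Pool.Agent.N894.WF.DefsN
import Pool.Agent.N825.WF.N1
import Pool.Agent.N353.WF_N2
import Pool.Agent.N768.WF_N3
import Pool.Agent.N562.WF_C3p

/-!
# Project WF: commutator-contractive approximations
-/

namespace N894.WF

open Pool.Agent

theorem rankSofic_of_locNS (G : Type) [Group G] (h : LocNS G) : RankSofic G :=
  N562.WF.t_C3p (N285.WF.t_LIN N288.WF.t_LIN1) N707.WF.t_C1 N806.WF.t_C2 G h

theorem rankSofic_of_ccApprox (G : Type) [Group G] (h : CCApprox G) : RankSofic G :=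
  rankSofic_of_locNS G (N768.WF.t_N3 N825.WF.t_N1 N353.WF.t_N2 G h)

end N894.WF
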